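import Pool.Agent.H79.BN.Targets
import Pool.Agent.H93.BL.Basic
import Pool.Agent.H26.BL.B1
import Pool.Agent.H26.BL.B2
import Pool.Agent.H26.BL.B3
import Pool.Agent.H67.BL.G4
import Pool.Agent.H67.BL.G6

/-!
# Row Y2C: the vertex criterion excludes sequences of separated pairs
-/

namespace Pool.Agent.H35.BN

open MeasureTheory Set Filter Topology Pool.Agent.H93.BL Pool.Agent.H79.BN

theorem b3' : T_B3 :=
  Pool.Agent.H26.BL.B3.b3 Pool.Agent.H26.BL.B1.b1 Pool.Agent.H26.BL.B2.b2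
    (Pool.Agent.H67.BL.G6.g6 Pool.Agent.H67.BL.G4.g4)

section fam

variable {n : ℕ} [NeZero n] {w : Fin n → ℂ} {E : Set (Fin n)} {F : Ultrafilter ℕ}
  {P : ℕ → Polygon (Fin n)} {f : ℕ → ℤ → Fin n × ℝ × ℝ} {y d : ℂ} {j : Fin n}

theorem famA (h9 : T_V9) (hc : ∀ δ > (0 : ℝ), ∀ᶠ k in (F : Filter ℕ), Close w δ (P k))
    (hs : ∀ k m, (P k).Step (f k m) (f k (m + 1)) ∧ (f k m).1 ∉ E)
    (hp : Tendsto (fun k => (P k).pos (f k 1)) F (𝓝 y))
    (hd : Tendsto (fun k => (P k).dir (f k 0)) F (𝓝 d)) (ha : Ab w E y (-d)) : False := by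
  refine h9 n w E y (-d) ha F P (fun k => ((f k 1).1, (f k 1).2.1, -(f k 1).2.2)) (-d) hc
    (Eventually.of_forall fun k => ?_) hp ?_ ⟨1, one_pos, by simp⟩
  · refine ⟨fun m => ((f k (1 - m)).1, (f k (1 - m)).2.1, -(f k (1 - m)).2.2), by simp,
      fun m => ⟨?_, (hs k (1 - m)).2⟩⟩
    have h2 := (b3' (Fin n) (P k) (f k (-m)) (f k (-m + 1)) (f k 0)).2.2 (hs k (-m)).1
    have e1 : (-(m : ℤ) + 1) = 1 - m := by ring
    have e2 : (-(m : ℤ)) = 1 - ((m + 1 : ℕ) : ℤ) := by push_cast; ring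
    rw [e1, e2] at h2
    exact h2
  · have h1 : (fun k => (P k).dir ((f k 1).1, (f k 1).2.1, -(f k 1).2.2)) =
        fun k => -(P k).dir (f k 0) := by
      funext k
      obtain ⟨-, -, t, -, -, -, h2⟩ := (hs k 0).1
      rw [zero_add] at h2
      have h3 := (P k).refl_dir (f k 1).1 (f k 1).2.1 (f k 1).2.2
      have h4 : (P k).dir (f k 1) = (P k).dir ((f k 1).1, (f k 1).2.1, (f k 1).2.2) := rfl
      rw [← h4, h2, (P k).refl_refl] at h3
      rw [h3, neg_neg]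
    rw [h1]
    exact hd.neg

theorem famB (h9 : T_V9) (hc : ∀ δ > (0 : ℝ), ∀ᶠ k in (F : Filter ℕ), Close w δ (P k))
    (hs : ∀ k m, (P k).Step (f k m) (f k (m + 1)) ∧ (f k m).1 ∉ E)
    (hp : Tendsto (fun k => (P k).pos (f k 1)) F (𝓝 y))
    (hd : Tendsto (fun k => (P k).dir (f k 1)) F
      (𝓝 (rf (ed w j) d / ((‖ed w j‖ ^ 2 : ℝ) : ℂ)))) (hj : cr (ed w j) d < 0)
    (ha : Ab w E y (rf (ed w j) d)) : False := by
  have hj0 : ed w j ≠ 0 := by
    intro h0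
    rw [h0, cr_zero_left] at hj
    exact lt_irrefl _ hj
  have hn : 0 < ‖ed w j‖ ^ 2 := by
    have := norm_pos_iff.2 hj0
    positivity
  refine h9 n w E y _ ha F P (fun k => f k 1) _ hc (Eventually.of_forall fun k => ?_) hp hd
    ⟨‖ed w j‖ ^ 2, hn, ?_⟩
  · refine ⟨fun m => f k (1 + m), by simp, fun m => ⟨?_, (hs k (1 + m)).2⟩⟩
    have h1 := (hs k (1 + m)).1
    have e1 : (1 + (m : ℤ) + 1) = 1 + ((m + 1 : ℕ) : ℤ) := by push_cast; ring
    rw [e1] at h1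
    exact h1
  · have h2 : ((‖ed w j‖ ^ 2 : ℝ) : ℂ) ≠ 0 := by exact_mod_cast hn.ne'
    rw [mul_div_cancel₀ _ h2]

end fam

theorem y2c (h9 : T_V9) (hy1 : T_Y1) (hb : T_Y2B) : T_Y2C := by
  intro n _ w E S hn hw hfree
  obtain ⟨X, d, t, t', hd1, hf0, hf0', hm, hc, hm', hc', hp, hp', hdr, hdr'⟩ := hb n w E S hn hw
  have hd0 : d ≠ 0 := by
    intro h0
    rw [h0, norm_zero] at hd1
    exact zero_ne_one hd1
  obtain ⟨i, hij, e1, e2, e3⟩ := hy1 n w hn hw X d S.j S.j' t t' hd0 S.ne hm hc hm' hc'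
  obtain ⟨k₀, hk1, hk2⟩ := S.hit.exists
  have hjE : S.j ∉ E := by
    rw [← hk1]
    exact (S.step k₀ 1).2
  have hjE' : S.j' ∉ E := by
    rw [← hk2]
    exact (S.step' k₀ 1).2
  have hA : Ab w E (w (i + 1)) (-d) → False := by
    intro ha
    rcases e3 with h | h
    · rw [e1 h] at hp
      exact famA h9 S.close S.step hp hf0 ha
    · rw [e2 h] at hp'
      exact famA h9 S.close S.step' hp' hf0' ha
  have hB : cr (ed w S.j) d < 0 → Ab w E (w (i + 1)) (rf (ed w S.j) d) → False := by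
    intro h ha
    rw [e1 h] at hp
    exact famB h9 S.close S.step hp hdr h ha
  have hB' : cr (ed w S.j') d < 0 → Ab w E (w (i + 1)) (rf (ed w S.j') d) → False := by
    intro h ha
    rw [e2 h] at hp'
    exact famB h9 S.close S.step' hp' hdr' h ha
  rcases hij with ⟨h1, h2⟩ | ⟨h1, h2⟩
  · rw [h1] at hjE hc hB
    rw [h2] at hjE' hc' hB'
    rcases hfree i hjE hjE' d hd0 hc hc' with h | ⟨h, h'⟩ | ⟨h, h'⟩
    · exact hA h
    · exact hB h h'
    · exact hB' h h'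
  · rw [h1] at hjE hc hB
    rw [h2] at hjE' hc' hB'
    rcases hfree i hjE' hjE d hd0 hc' hc with h | ⟨h, h'⟩ | ⟨h, h'⟩
    · exact hA h
    · exact hB' h h'
    · exact hB h h'

end Pool.Agent.H35.BN
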